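import Pool.Agent.Lib.MP_291c47_an.TK.MN

/-!
# MP_291c47_an: the trilinear Kakeya-type estimate in `ℝ⁴` for tubes contained in few planes parallel to a
transversal direction

Definitions (file `Pool/Agent/Lib/MP_291c47_an/TK/Defs.lean`):
* `Tube δ`: a box of `ℝ⁴` with one side of length `1` and three sides of length `δ` (`carrier`), direction `dir`;
* `F T x = ∑_i χ_{T i}(x)`;
* `Separated T`: distinct tubes of the family have `δ`-separated directions (unsigned);
* `Transversal c ω T`: `|det (e(T_1), e(T_2), e(T_3), ω)| ≥ c` for all `T_j ∈ 𝕋_j`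
  (for a unit vector `ω` this implies `|e(T_1) ∧ e(T_2) ∧ e(T_3)| ≥ c`);
* `InPlanes A ω m T`: every tube of the family is contained in one of the `Aδ`-neighbourhoods of `m` planes
  `{a_k + s u_k + t ω}`.
-/

open scoped ENNReal
open MeasureTheory

namespace Pool.Agent.Results.MP_291c47_an.PlaneClusters

open Pool.Agent.Lib.MP_291c47_an.TK

/-- The estimate of Q1 with an explicit loss in terms of the numbers `m j` of planes: there is no loss if
`q ≥ 3/2`, and none (up to a constant) if `m 0 * m 1 * m 2 ≤ K δ⁻⁶`, for example if every family lies in at most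
`K' δ⁻²` planes; a family may have up to about `δ⁻³` tubes. -/
theorem result (c A ε : ℝ) (p q : ℝ≥0∞) (hc : 0 < c) (hA : 1 ≤ A) (hε : 0 < ε) (hp : 1 ≤ p)
    (hq : 4 / 3 ≤ q) (hpq : 1 / p + 3 / q ≤ 3) :
    ∃ C : ℝ, 0 < C ∧ ∀ (δ : ℝ), 0 < δ → δ < 1 → ∀ (ω : E4), ‖ω‖ = 1 →
      ∀ (ι : Fin 3 → Type) [∀ j, Fintype (ι j)] (T : ∀ j, ι j → Tube δ) (m : Fin 3 → ℕ),
        (∀ j, Separated (T j)) → Transversal c ω T → (∀ j, InPlanes A ω (m j) (T j)) →
        eLpNorm (fun x => F (T 0) x * F (T 1) x * F (T 2) x) (q / 3) volume ≤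
          ENNReal.ofReal (C * δ ^ (3 * (4 * (1 / q).toReal - 3 * (1 - (1 / p).toReal) - ε)) *
            (∏ j, (Fintype.card (ι j) : ℝ)) ^ (1 / p).toReal *
            (max 1 (δ ^ 6 * ∏ j, (m j : ℝ))) ^ (max 0 (3 * (1 / q).toReal - 2))) :=
  main c A ε p q hc hA hε hp hq hpq

end Pool.Agent.Results.MP_291c47_an.PlaneClusters
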